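import Mathlib
import Pool.Agent.H499R2.NDClass2

set_option autoImplicit false

/-!
The `3x - 1` map on the positive integers: the classes of merging trajectories have positive natural
densities with sum `1`.
-/

namespace Pool.Agent.Results.MP_77ff3d_nt.NaturalDensities

open Filter Topology

/-- The `3x - 1` map on the positive integers. -/
def T (a : ℕ) : ℕ := if a % 2 = 0 then a / 2 else 3 * a - 1

/-- The trajectories of `a` and `b` merge. -/
def Merge (a b : ℕ) : Prop := ∃ i j : ℕ, T^[i] a = T^[j] b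

/-- Among the positive integers the set `S` has natural density `δ`. -/
def HasDensity (S : Set ℕ) (δ : ℝ) : Prop :=
  Tendsto (fun N : ℕ => ({n : ℕ | 0 < n ∧ n ≤ N ∧ n ∈ S}.ncard : ℝ) / N) atTop (𝓝 δ)

/-- `a` is the least positive integer whose trajectory merges with that of `a`. -/
def IsRep (a : ℕ) : Prop := 0 < a ∧ ∀ b : ℕ, 0 < b → Merge a b → a ≤ b

theorem Ci_neg (n : ℕ) : Pool.Agent.H499R2.ND.Ci (-(n : ℤ)) = -((T n : ℕ) : ℤ) := by
  unfold Pool.Agent.H499R2.ND.Ci T
  split_ifs <;> omega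

theorem Ci_iter (k n : ℕ) : Pool.Agent.H499R2.ND.Ci^[k] (-(n : ℤ)) = -((T^[k] n : ℕ) : ℤ) := by
  induction k generalizing n with
  | zero => rfl
  | succ k ih => rw [Function.iterate_succ_apply, Function.iterate_succ_apply, Ci_neg, ih]

theorem merge_iff (a b : ℕ) : Merge a b ↔ ∃ i j : ℕ,
    Pool.Agent.H499R2.ND.Ci^[i] (-(a : ℤ)) = Pool.Agent.H499R2.ND.Ci^[j] (-(b : ℤ)) := by
  simp only [Ci_iter, neg_inj, Nat.cast_inj]
  rfl

theorem T_pos {a : ℕ} (ha : 0 < a) : 0 < T a := by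
  unfold T; split_ifs <;> omega

theorem ncard_neg (P : ℤ → Prop) (N : ℕ) :
    {n : ℤ | 0 < (-1) * n ∧ (-1) * n ≤ N ∧ P n}.ncard =
      {n : ℕ | 0 < n ∧ n ≤ N ∧ P (-(n : ℤ))}.ncard := by
  have h : {n : ℤ | 0 < (-1) * n ∧ (-1) * n ≤ N ∧ P n} =
      (fun n : ℕ => -(n : ℤ)) '' {n : ℕ | 0 < n ∧ n ≤ N ∧ P (-(n : ℤ))} := by
    ext z
    simp only [Set.mem_setOf_eq, Set.mem_image]
    constructor
    · rintro ⟨h1, h2, h3⟩
      refine ⟨(-z).toNat, ⟨by omega, by omega, ?_⟩, by omega⟩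
      have e : -(((-z).toNat : ℕ) : ℤ) = z := by omega
      rw [e]; exact h3
    · rintro ⟨n, ⟨h1, h2, h3⟩, rfl⟩
      exact ⟨by omega, by omega, h3⟩
  rw [h, Set.ncard_image_of_injective]
  intro a b hab
  simpa using hab

theorem isRep_iff (a : ℕ) : IsRep a ↔ Pool.Agent.H499R2.ND.IsRep (-1) (-(a : ℤ)) := by
  unfold IsRep Pool.Agent.H499R2.ND.IsRep
  constructor
  · rintro ⟨h1, h2⟩
    refine ⟨by omega, fun b hb hm => ?_⟩
    obtain ⟨b', rfl⟩ : ∃ b' : ℕ, b = -(b' : ℤ) := ⟨(-b).toNat, by omega⟩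
    have := h2 b' (by omega) ((merge_iff a b').2 hm)
    omega
  · rintro ⟨h1, h2⟩
    refine ⟨by omega, fun b hb hm => ?_⟩
    have := h2 (-(b : ℤ)) (by omega) ((merge_iff a b).1 hm)
    omega

/-- The positive integers split into the merging classes of the `3x - 1` map; every class has a
positive natural density, these densities add up to `1`, and every set `S` of positive integers which
is invariant under `T` and its inverse has a natural density, the sum of the densities of the classes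
it contains. -/
theorem result : ∃ δ : ℕ → ℝ,
    (∀ a : ℕ, 0 < a → 0 < δ a ∧ HasDensity {n | Merge n a} (δ a)) ∧
    (∀ S : Set ℕ, (∀ x : ℕ, 0 < x → (x ∈ S ↔ T x ∈ S)) →
      HasDensity S (∑' a : {a : ℕ // IsRep a ∧ a ∈ S}, δ a)) ∧
    HasSum (fun a : {a : ℕ // IsRep a} => δ a) 1 := by
  obtain ⟨δ, h1, h2, h3⟩ := Pool.Agent.H499R2.ND.structure_full (s := -1) (Or.inr rfl)
  refine ⟨fun a => δ (-(a : ℤ)), fun a ha => ?_, fun S hS => ?_, ?_⟩
  · obtain ⟨h4, h5⟩ := h1 (-(a : ℤ)) (by omega)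
    refine ⟨h4, ?_⟩
    refine h5.congr fun N => ?_
    rw [ncard_neg (fun n => ∃ i j : ℕ, Pool.Agent.H499R2.ND.Ci^[i] n =
      Pool.Agent.H499R2.ND.Ci^[j] (-(a : ℤ))) N]
    simp only [← merge_iff]
    rfl
  · have hinv : ∀ x : ℤ, x ∈ {z : ℤ | z < 0 ∧ (-z).toNat ∈ S} ↔
        Pool.Agent.H499R2.ND.Ci x ∈ {z : ℤ | z < 0 ∧ (-z).toNat ∈ S} := by
      intro x
      simp only [Set.mem_setOf_eq]
      rcases lt_or_ge x 0 with hx | hx
      · obtain ⟨n, rfl⟩ : ∃ n : ℕ, x = -(n : ℤ) := ⟨(-x).toNat, by omega⟩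
        have hn : 0 < n := by omega
        have hT := T_pos hn
        rw [Ci_neg]
        simp only [neg_neg, Int.toNat_natCast]
        constructor
        · rintro ⟨_, h⟩; exact ⟨by omega, (hS n hn).1 h⟩
        · rintro ⟨_, h⟩; exact ⟨hx, (hS n hn).2 h⟩
      · constructor
        · rintro ⟨h, _⟩; omega
        · rintro ⟨h, _⟩
          exfalso
          unfold Pool.Agent.H499R2.ND.Ci at h
          split_ifs at h <;> omega
    have h4 := h2 _ hinv
    let e : {a : ℕ // IsRep a ∧ a ∈ S} ≃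
        {a : ℤ // Pool.Agent.H499R2.ND.IsRep (-1) a ∧ a ∈ {z : ℤ | z < 0 ∧ (-z).toNat ∈ S}} :=
      { toFun := fun a => ⟨-(a.1 : ℤ), (isRep_iff a.1).1 a.2.1, by
          have := a.2.1.1
          refine ⟨by omega, ?_⟩
          simpa using a.2.2⟩
        invFun := fun a => ⟨(-a.1).toNat, by
          have h5 := a.2.2.1
          have e1 : a.1 = -(((-a.1).toNat : ℕ) : ℤ) := by omega
          refine ⟨(isRep_iff _).2 ?_, a.2.2.2⟩
          rw [← e1]; exact a.2.1⟩
        left_inv := fun a => by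
          apply Subtype.ext
          simp
        right_inv := fun a => by
          apply Subtype.ext
          have h5 := a.2.2.1
          simp only
          omega }
    rw [← e.tsum_eq] at h4
    have h6 : Tendsto (fun N : ℕ => ({n : ℕ | 0 < n ∧ n ≤ N ∧ n ∈ S}.ncard : ℝ) / N) atTop
        (𝓝 (∑' c : {a : ℕ // IsRep a ∧ a ∈ S}, δ (e c).1)) := by
      refine h4.congr fun N => ?_
      rw [ncard_neg (fun n => n ∈ {z : ℤ | z < 0 ∧ (-z).toNat ∈ S}) N]
      have e2 : {n : ℕ | 0 < n ∧ n ≤ N ∧ (-(n : ℤ)) ∈ {z : ℤ | z < 0 ∧ (-z).toNat ∈ S}} =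
          {n : ℕ | 0 < n ∧ n ≤ N ∧ n ∈ S} := by
        ext n
        simp only [Set.mem_setOf_eq, neg_neg, Int.toNat_natCast]
        constructor
        · rintro ⟨a1, a2, _, a3⟩; exact ⟨a1, a2, a3⟩
        · rintro ⟨a1, a2, a3⟩; exact ⟨a1, a2, by omega, a3⟩
      rw [e2]
    exact h6
  · let e : {a : ℕ // IsRep a} ≃ {a : ℤ // Pool.Agent.H499R2.ND.IsRep (-1) a} :=
      { toFun := fun a => ⟨-(a.1 : ℤ), (isRep_iff a.1).1 a.2⟩
        invFun := fun a => ⟨(-a.1).toNat, by
          have h5 := a.2.1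
          have e1 : a.1 = -(((-a.1).toNat : ℕ) : ℤ) := by omega
          refine (isRep_iff _).2 ?_
          rw [← e1]; exact a.2⟩
        left_inv := fun a => by
          apply Subtype.ext
          simp
        right_inv := fun a => by
          apply Subtype.ext
          have h5 := a.2.1
          simp only
          omega }
    exact (e.hasSum_iff (f := fun a : {a : ℤ // Pool.Agent.H499R2.ND.IsRep (-1) a} => δ a)).2 h3

end Pool.Agent.Results.MP_77ff3d_nt.NaturalDensities
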